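import Mathlib
import Pool.Agent.H2.Box2

namespace Pool.Agent.Results.MP_1e851b_pr.Boxes

open Real Set Finset Filter Topology MeasureTheory Pool.Agent.H2.Box1 Pool.Agent.H2.Box2

theorem jensen {d : ℕ} (hd : 0 < d) (b : Fin d → ℝ) (hb : ∀ k, 0 < b k) (hs : ∑ k, b k = d)
    (s : ℝ) (h : 0 < s) : ∏ k, S (b k * s) ≤ S s ^ d := by
  have d0 : (0 : ℝ) < d := by exact_mod_cast hd
  have := S_concave.le_map_sum (t := univ) (w := fun _ : Fin d => (d : ℝ)⁻¹) (p := fun k => b k * s)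
    (fun _ _ => by positivity) (by simp [d0.ne']) (fun k _ => mul_pos (hb k) h)
  simp only [smul_eq_mul] at this
  rw [← mul_sum, ← mul_sum, ← sum_mul, hs, ← mul_assoc, inv_mul_cancel₀ d0.ne', one_mul,
    inv_mul_le_iff₀ d0, ← log_prod fun k _ => (S_pos _ (mul_pos (hb k) h)).ne', ← log_pow] at this
  exact (log_le_log_iff (prod_pos fun k _ => S_pos _ (mul_pos (hb k) h))
    (pow_pos (S_pos s h) d)).1 this

theorem ev_small (c ε : ℝ) (hc : 0 < c) (hε : 0 < ε) :
    ∀ᶠ s in atTop, exp (-(π ^ 2 * (c * s))) < ε := by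
  have : Tendsto (fun s => exp (-(π ^ 2 * (c * s)))) atTop (𝓝 0) :=
    tendsto_exp_neg_atTop_nhds_zero.comp
      ((tendsto_id.const_mul_atTop hc).const_mul_atTop (by positivity))
  exact this.eventually_lt_const hε

theorem strict {d : ℕ} (hd : 0 < d) (b : Fin d → ℝ) (hb : ∀ k, 0 < b k) (hs : ∑ k, b k = d)
    (j : Fin d) (hj : b j < 1) : ∃ s, 0 < s ∧ ∏ k, S (b k * s) < S s ^ d := by
  have d0 : (0 : ℝ) < d := by exact_mod_cast hd
  obtain ⟨s, ⟨h0, h1⟩, h2, h3⟩ := (((eventually_gt_atTop 0).and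
    (eventually_all.2 fun k => ev_small (b k) (1 / 12) (hb k) (by norm_num))).and
    ((ev_small 1 (1 / 12) one_pos (by norm_num)).and
    (ev_small (1 - b j) (1 / (6 * d)) (by linarith) (by positivity)))).exists
  refine ⟨s, h0, ?_⟩
  rw [one_mul] at h2
  have p4 : 0 < 4 / π := by positivity
  set x := exp (-(π ^ 2 * s)) with hx
  have x0 : 0 < x := exp_pos _
  have up : ∏ k, S (b k * s) ≤ (4 / π * exp (-(lam 0 * s))) ^ d *
      (1 - exp (-(π ^ 2 * (b j * s))) / 6) := by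
    have e : (4 / π * exp (-(lam 0 * s))) ^ d = ∏ k, 4 / π * exp (-(lam 0 * (b k * s))) := by
      rw [prod_mul_distrib, ← exp_sum, mul_pow, ← exp_nat_mul]
      simp only [prod_const, card_univ, Fintype.card_fin, sum_neg_distrib, ← mul_sum, ← sum_mul, hs]
      congr 2; ring
    have e2 : (1 - exp (-(π ^ 2 * (b j * s))) / 6) =
        ∏ k, if k = j then 1 - exp (-(π ^ 2 * (b k * s))) / 6 else 1 := by simp
    rw [e, e2, ← prod_mul_distrib]
    refine prod_le_prod (fun k _ => (S_pos _ (mul_pos (hb k) h0)).le) fun k _ => ?_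
    refine (S_two _ (mul_pos (hb k) h0) (h1 k).le).2.trans ?_
    split_ifs
    · exact le_rfl
    · apply mul_le_mul_of_nonneg_left _ (by positivity)
      have := exp_pos (-(π ^ 2 * (b k * s))); linarith
  have lo : (4 / π * exp (-(lam 0 * s))) ^ d * (1 - d * x) ≤ S s ^ d := by
    have := one_add_mul_le_pow (a := -x) (by linarith) d
    calc _ ≤ (4 / π * exp (-(lam 0 * s))) ^ d * (1 + -x) ^ d :=
          mul_le_mul_of_nonneg_left (by linarith) (by positivity)
      _ = (4 / π * exp (-(lam 0 * s)) * (1 - x)) ^ d := by rw [← mul_pow]; ring_nf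
      _ ≤ _ := pow_le_pow_left₀ (mul_nonneg (by positivity) (by linarith)) (S_two s h0 h2.le).1 d
  refine up.trans_lt (lt_of_lt_of_le (mul_lt_mul_of_pos_left ?_ (by positivity)) lo)
  have e : x = exp (-(π ^ 2 * ((1 - b j) * s))) * exp (-(π ^ 2 * (b j * s))) := by
    rw [hx, ← exp_add]; congr 1; ring
  have := mul_lt_mul_of_pos_right h3 (exp_pos (-(π ^ 2 * (b j * s))))
  rw [← e, div_mul_eq_mul_div, lt_div_iff₀ (by positivity)] at this
  linarith

theorem S_exp (s : ℝ) (h : 0 < s) : S s ≤ (4 / π + exp (lam 0 * 2)) * exp (-(lam 0 * s)) := by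
  have p4 : 0 < 4 / π := by positivity
  have e0 := exp_pos (-(lam 0 * s))
  rcases le_total s 2 with h2 | h2
  · have : 1 ≤ exp (lam 0 * 2) * exp (-(lam 0 * s)) := by
      rw [← exp_add]; apply one_le_exp; nlinarith [lam_pos 0]
    nlinarith [S_le s h, mul_pos p4 e0]
  · have hx : exp (-(π ^ 2 * s)) ≤ 1 / 12 := by
      rw [exp_neg, one_div]
      apply inv_anti₀ (by norm_num)
      have := add_one_le_exp (π ^ 2 * s)
      have : 9 ≤ π ^ 2 := by nlinarith [pi_gt_three]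
      nlinarith
    have := (S_two s h hx).2
    nlinarith [mul_pos (mul_pos p4 e0) (exp_pos (-(π ^ 2 * s))), mul_pos (exp_pos (lam 0 * 2)) e0]

theorem contF (d : ℕ) (p : ℝ) : ContinuousOn (fun t : ℝ => p * t ^ (p - 1) * S t ^ d) (Ioi 0) :=
  (continuousOn_const.mul (continuousOn_id.rpow_const fun _ ht => Or.inl (ne_of_gt ht))).mul
    (S_cont.pow d)

theorem contG {d : ℕ} (p : ℝ) (b : Fin d → ℝ) (hb : ∀ k, 0 < b k) :
    ContinuousOn (fun t : ℝ => p * t ^ (p - 1) * ∏ k, S (b k * t)) (Ioi 0) :=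
  (continuousOn_const.mul (continuousOn_id.rpow_const fun _ ht => Or.inl (ne_of_gt ht))).mul
    (continuousOn_finset_prod _ fun k _ => S_cont.comp (by fun_prop) fun _ ht => mul_pos (hb k) ht)

theorem intF {d : ℕ} (hd : 0 < d) {p : ℝ} (hp : 0 < p) :
    IntegrableOn (fun t : ℝ => p * t ^ (p - 1) * S t ^ d) (Ioi 0) := by
  have := (integrableOn_rpow_mul_exp_neg_mul_rpow (s := p - 1) (p := 1) (by linarith) one_pos
    (lam_pos 0)).const_mul (p * (4 / π + exp (lam 0 * 2)))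
  refine Integrable.mono' this ((contF d p).aestronglyMeasurable measurableSet_Ioi)
    ((ae_restrict_iff' measurableSet_Ioi).2 (Eventually.of_forall fun t ht => ?_))
  have ht : 0 < t := ht
  have s0 := S_pos t ht
  rw [norm_eq_abs, abs_of_nonneg (by positivity), rpow_one, neg_mul]
  have : S t ^ d ≤ S t := pow_le_of_le_one s0.le (S_le t ht) hd.ne'
  calc _ ≤ p * t ^ (p - 1) * ((4 / π + exp (lam 0 * 2)) * exp (-(lam 0 * t))) :=
        mul_le_mul_of_nonneg_left (this.trans (S_exp t ht)) (by positivity)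
    _ = _ := by ring

theorem result (d : ℕ) (hd : 2 ≤ d) (p : ℝ) (hp : 0 < p) (a : Fin d → ℝ) (ha : ∀ k, 0 < a k) :
    IntegrableOn (fun t : ℝ => p * t ^ (p - 1) * ∏ k, S (t / a k ^ 2)) (Ioi 0) ∧
    IntegrableOn (fun t : ℝ => p * t ^ (p - 1) * S t ^ d) (Ioi 0) ∧
    (∑ k, (a k ^ 2)⁻¹) ^ p * ∫ t in Ioi (0 : ℝ), p * t ^ (p - 1) * ∏ k, S (t / a k ^ 2) ≤
      (d : ℝ) ^ p * ∫ t in Ioi (0 : ℝ), p * t ^ (p - 1) * S t ^ d ∧
    ((∑ k, (a k ^ 2)⁻¹) ^ p * ∫ t in Ioi (0 : ℝ), p * t ^ (p - 1) * ∏ k, S (t / a k ^ 2) =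
      (d : ℝ) ^ p * ∫ t in Ioi (0 : ℝ), p * t ^ (p - 1) * S t ^ d → ∀ j k, a j = a k) := by
  have hd0 : 0 < d := by omega
  have d0 : (0 : ℝ) < d := by exact_mod_cast hd0
  haveI : Nonempty (Fin d) := ⟨⟨0, hd0⟩⟩
  have ha' : ∀ k, 0 < (a k ^ 2)⁻¹ := fun k => by have := ha k; positivity
  set σ : ℝ := (∑ k, (a k ^ 2)⁻¹) / d with hσ
  have σ0 : 0 < σ := div_pos (sum_pos (fun k _ => ha' k) univ_nonempty) d0
  set b : Fin d → ℝ := fun k => (a k ^ 2)⁻¹ / σ with hbd
  have hb : ∀ k, 0 < b k := fun k => div_pos (ha' k) σ0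
  have hsum : ∑ k, (a k ^ 2)⁻¹ = d * σ := by rw [hσ]; field_simp
  have hs : ∑ k, b k = d := by simp only [hbd]; rw [← sum_div, hsum]; field_simp
  let g : ℝ → ℝ := fun t => p * t ^ (p - 1) * ∏ k, S (b k * t)
  have le : ∀ t ∈ Ioi (0 : ℝ), g t ≤ p * t ^ (p - 1) * S t ^ d := fun t ht =>
    mul_le_mul_of_nonneg_left (jensen hd0 b hb hs t ht) (by have : 0 < t := ht; positivity)
  have ig : IntegrableOn g (Ioi 0) := by
    refine Integrable.mono' (intF hd0 hp) ((contG p b hb).aestronglyMeasurable measurableSet_Ioi)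
      ((ae_restrict_iff' measurableSet_Ioi).2 (Eventually.of_forall fun t ht => ?_))
    have ht' : 0 < t := ht
    have : 0 < ∏ k, S (b k * t) := prod_pos fun k _ => S_pos _ (mul_pos (hb k) ht')
    rw [norm_eq_abs, abs_of_nonneg (by simp only [g]; positivity)]
    exact le t ht
  have sp : 0 < σ ^ (p - 1) := rpow_pos_of_pos σ0 _
  have sc : ∀ t ∈ Ioi (0 : ℝ), p * t ^ (p - 1) * ∏ k, S (t / a k ^ 2) =
      (σ ^ (p - 1))⁻¹ * g (σ * t) := fun t ht => by
    have e : ∀ k, b k * (σ * t) = t / a k ^ 2 := fun k => by simp only [hbd]; field_simp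
    simp only [g, e]
    rw [mul_rpow σ0.le (le_of_lt ht)]; field_simp
  have key : (∑ k, (a k ^ 2)⁻¹) ^ p * ∫ t in Ioi (0 : ℝ), p * t ^ (p - 1) * ∏ k, S (t / a k ^ 2) =
      (d : ℝ) ^ p * ∫ t in Ioi (0 : ℝ), g t := by
    rw [setIntegral_congr_fun measurableSet_Ioi sc, integral_const_mul,
      integral_comp_mul_left_Ioi g 0 σ0, mul_zero, hsum, mul_rpow d0.le σ0.le, smul_eq_mul,
      rpow_sub_one σ0.ne']
    have := (rpow_pos_of_pos σ0 p).ne'
    field_simp
  have ale : g ≤ᵐ[volume.restrict (Ioi 0)] fun t : ℝ => p * t ^ (p - 1) * S t ^ d :=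
    (ae_restrict_iff' measurableSet_Ioi).2 (Eventually.of_forall le)
  refine ⟨?_, intF hd0 hp, ?_, fun h => ?_⟩
  · have : IntegrableOn (fun t => g (σ * t)) (Ioi 0) :=
      (integrableOn_Ioi_comp_mul_left_iff g 0 σ0).2 (by rwa [mul_zero])
    exact IntegrableOn.congr_fun (this.const_mul (σ ^ (p - 1))⁻¹) (fun t ht => (sc t ht).symm)
      measurableSet_Ioi
  · rw [key]
    exact mul_le_mul_of_nonneg_left (integral_mono_ae ig (intF hd0 hp) ale) (by positivity)
  · rw [key] at h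
    have h' := (integral_eq_iff_of_ae_le ig (intF hd0 hp) ale).1
      (mul_left_cancel₀ (rpow_pos_of_pos d0 p).ne' h)
    have eq := Measure.eqOn_open_of_ae_eq h' isOpen_Ioi (contG p b hb) (contF d p)
    have ge : ∀ j, 1 ≤ b j := fun j => by
      by_contra hj
      obtain ⟨s, h0, hlt⟩ := strict hd0 b hb hs j (not_le.1 hj)
      have := eq h0
      exact hlt.ne (mul_left_cancel₀ (by positivity) this)
    have one : ∀ j, b j = 1 := fun j => by
      have : ∑ _k : Fin d, (1 : ℝ) = ∑ k, b k := by simp [hs]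
      exact ((sum_eq_sum_iff_of_le fun k _ => ge k).1 this j (mem_univ j)).symm
    intro j k
    have : b j = b k := by rw [one, one]
    simp only [hbd] at this
    rw [div_left_inj' σ0.ne', inv_inj] at this
    exact (pow_left_inj₀ (ha j).le (ha k).le two_ne_zero).1 this

end Pool.Agent.Results.MP_1e851b_pr.Boxes
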